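import Pool.Agent.Lib_helper24.SapR.Defs

/-!
# Statements of the modules K1 - K7 (combinatorics half of MP_f6626d_co)

All sums are over finite sets; `F` is an arbitrary real valued function. The statements have been
checked numerically for `r ≤ 6`, `n ≤ 6`.
-/

set_option autoImplicit false

namespace Pool.Agent.SapR

open Finset Pool.Agent.Lib27 Filter Topology

/-- K1 (canonical root). Every word of the family has exactly one rotation which starts at the
vertex of the lowest cut diagonal where the polygon goes up; it is then `w ++ rot2 T` with `w` an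
arch and `rot2 T` a bottom cap (with `x` the gap; orientation reversal changes the sign of `x`).
`T` ranges over the caps of gap `x` with `M` steps. -/
def K1_Stmt : Prop :=
  ∀ (r n : ℕ), r < 2 * n → ∀ F : ℤ → ℝ,
    ∑ s ∈ Fam r n, F |dbl 0 s| =
      4 * n * ∑ x ∈ Icc (1 : ℤ) r, ∑ M ∈ range (r + 2), ∑ T ∈ CapSet r x M,
        ∑ w ∈ ArchSet r x (2 * n - M), F (dbl 0 w + dbl 0 T)

/-- K1' (part of K1 which may be proved separately): orientation reversal. -/
def K1pos_Stmt : Prop :=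
  ∀ (x : ℤ) (w T : List (Fin 4)), 1 ≤ x → Arch x w → Arch x T → 0 < dbl 0 (w ++ rot2 T)

/-- K2 (arch decomposition at the lowest cut diagonal). -/
def K2_Stmt : Prop :=
  ∀ (r : ℕ) (x : ℤ) (N : ℕ), 1 ≤ x → ∀ F : List (Fin 4) → ℝ,
    ∑ w ∈ ArchSet r x N, F w =
      ∑ w ∈ CapSet r x N, F w +
      ∑ p ∈ allowed r x, ∑ w ∈ ArchSet r (x + jump p) (N - (p.1.length + p.2.length)),
        F (p.1 ++ w ++ p.2)

/-- K3 (planarity). Two disjoint strands in a strip do not change their order. -/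
def K3_Stmt : Prop :=
  ∀ (x : ℤ) (p : List (Fin 4) × List (Fin 4)), 1 ≤ x → StripPair p.1 p.2 → Disj x p →
    1 ≤ x + jump p

/-- K4 (area identity). -/
def K4_Stmt : Prop :=
  ∀ (x : ℤ) (p : List (Fin 4) × List (Fin 4)) (w : List (Fin 4)), StripPair p.1 p.2 →
    ep 0 w = (-(x + jump p), x + jump p) →
    dbl 0 (p.1 ++ w ++ p.2) = dbl 0 w + (ht p * (2 * x + jump p) + off p)

/-- K4' (area of a canonical polygon word). -/
def K4poly_Stmt : Prop :=
  ∀ (x : ℤ) (w T : List (Fin 4)), ep 0 w = (-x, x) → ep 0 T = (-x, x) →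
    dbl 0 (w ++ rot2 T) = dbl 0 w + dbl 0 T

/-- K5a: far pieces are all allowed. -/
def K5far_Stmt : Prop :=
  ∀ (r : ℕ) (x : ℤ), (r : ℤ) + 3 ≤ x → allowed r x = Pc r

/-- K5b: the involution `flip`. -/
def K5flip_Stmt : Prop :=
  ∀ (r : ℕ) (p : List (Fin 4) × List (Fin 4)), p ∈ Pc r →
    flip p ∈ Pc r ∧ flip (flip p) = p ∧ jump (flip p) = - jump p ∧ ht (flip p) = ht p ∧
    off (flip p) = off p ∧
    (flip p).1.length + (flip p).2.length = p.1.length + p.2.length ∧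
    ∀ x : ℤ, p ∈ allowed r x ↔ flip p ∈ allowed r (x + jump p)

/-- K5c: sizes, heights, offsets, jumps. -/
def K5size_Stmt : Prop :=
  ∀ (r : ℕ) (p : List (Fin 4) × List (Fin 4)), p ∈ Pc r →
    Even (p.1.length + p.2.length) ∧ 2 ≤ p.1.length + p.2.length ∧
    p.1.length + p.2.length ≤ r + 2 ∧ 1 ≤ ht p ∧ ht p ≤ r + 1 ∧
    |jump p| ≤ r + 2 ∧ |off p| ≤ (r + 2) ^ 2

/-- K5d: the four basic pieces. -/
def K5basic_Stmt : Prop :=
  ∀ (r : ℕ) (x : ℤ), 1 ≤ x →
    (([0], [2]) : List (Fin 4) × List (Fin 4)) ∈ allowed r x ∧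
    (([1], [3]) : List (Fin 4) × List (Fin 4)) ∈ allowed r x ∧
    (([0], [3]) : List (Fin 4) × List (Fin 4)) ∈ allowed r x ∧
    (2 ≤ x → (([1], [2]) : List (Fin 4) × List (Fin 4)) ∈ allowed r x)

/-- K5e: caps. A cap of gap `x` has an even number of steps, at least `2 x`, at most `r + 1`, and
there is a cap `[1, 2]` of gap `1`. -/
def K5cap_Stmt : Prop :=
  (∀ (r : ℕ) (x : ℤ) (M : ℕ) (T : List (Fin 4)), 1 ≤ x → T ∈ CapSet r x M →
    Even M ∧ 2 * x ≤ M ∧ M ≤ r + 1 ∧ |dbl 0 T| ≤ (r + 1) ^ 2) ∧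
  (∀ r : ℕ, 1 ≤ r → [1, 2] ∈ CapSet r 1 2) ∧
  (∀ (r : ℕ) (x : ℤ) (N : ℕ) (w : List (Fin 4)), 1 ≤ x → w ∈ ArchSet r x N →
    Even N ∧ 2 * x ≤ N)

open Classical in
/-- Staircase words (list form of the frozen `ST n`): the first step is East, East and North steps
are followed by West and South steps. -/
noncomputable def Stair (n : ℕ) : Finset (List (Fin 4)) :=
  (W n).filter (fun s => s.getD 0 1 = 0 ∧ ∃ m : ℕ, m ≤ 2 * n ∧
    (∀ i < m, s.getD i 0 = 0 ∨ s.getD i 0 = 1) ∧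
    (∀ i, m ≤ i → i < 2 * n → s.getD i 2 = 2 ∨ s.getD i 2 = 3))

/-- K6: the family with `r = 1` consists of the staircase polygons (each staircase polygon of
perimeter `2n` corresponds to one word of `Stair n` and to `4n` words of `Fam 1 n`). -/
def K6_Stmt : Prop :=
  ∀ n : ℕ, 2 ≤ n → ∀ F : ℤ → ℝ,
    ∑ s ∈ Fam 1 n, F |dbl 0 s| = 4 * n * ∑ s ∈ Stair n, F |dbl 0 s|

/-- K7a: monotonicity and exhaustion. -/
def K7mono_Stmt : Prop :=
  (∀ r r' n : ℕ, r ≤ r' → Fam r n ⊆ Fam r' n) ∧ (∀ r n : ℕ, 2 * n ≤ r → Fam r n = W n)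

/-- K7b: the growth constants of the families increase to the growth constant of all
self-avoiding polygons. -/
def K7growth_Stmt : Prop :=
  ∀ ε : ℝ, 0 < ε → ∃ r : ℕ, ∀ᶠ n : ℕ in atTop,
    Real.exp (n * (Lc - ε)) ≤ ((Fam r n).card : ℝ)

end Pool.Agent.SapR
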