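import Pool.Agent.Lib_helper24.SapR.Glue
import Pool.Agent.Lib_helper24.SapR.Stmts

/-!
# K2: decomposition of arches at the lowest cut diagonal
-/

set_option autoImplicit false

namespace Pool.Agent.SapR

open Finset Pool.Agent.Lib27

lemma gt_of_ne_levels_vs (h : ℤ) (s : List (Fin 4)) (p : ℤ × ℤ) (hp : h < lev p)
    (hs : ∀ v ∈ vs p s, lev v ≠ h) : ∀ v ∈ vs p s, h < lev v := by
  induction s generalizing p with
  | nil => simp
  | cons d s ih =>
    intro v hv
    rw [vs_cons, List.mem_cons] at hv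
    rcases hv with rfl | hv
    · exact hp
    · cases s with
      | nil => simp at hv
      | cons e s =>
        refine ih (p + dv d) ?_ ?_ v hv
        · have h1 : lev (p + dv d) ≠ h := by
            apply hs
            rw [vs_cons, List.mem_cons]
            exact Or.inr (by rw [vs_cons]; exact List.mem_cons_self ..)
          rw [lev_add] at h1 ⊢
          rcases lev_dv d with h2 | h2 <;> rw [h2] at h1 ⊢ <;> omega
        · intro v hv
          apply hs
          rw [vs_cons, List.mem_cons]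
          exact Or.inr hv

lemma eq_diag_of_lev (p : ℤ × ℤ) (h : lev p = 0) : p = (-p.2, p.2) := by
  unfold lev at h
  ext
  · simp only; linarith
  · rfl

/-- Existence of the decomposition at the lowest cut. -/
lemma exists_glued {x : ℤ} {w : List (Fin 4)} (hw : Arch x w) (h : ℤ)
    (hh : 1 ≤ h) (hc : Cut (vt 0 w) h) :
    ∃ (U w' D : List (Fin 4)) (y : ℤ), w = U ++ w' ++ D ∧ Glued x y U w' D ∧
      lev (ep 0 U) = h := by
  obtain ⟨hc2, hcm, hcp⟩ := hc
  obtain ⟨v0, hv0, hv0h⟩ := (cnt_pos (vt 0 w) h).1 (by omega)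
  obtain ⟨U, w2, e1, hU, hU'⟩ := split_first (fun v => lev v = h) w 0 ⟨v0, hv0, hv0h⟩
  obtain ⟨w', D, e2, hw', hD'⟩ := split_last (fun v => lev v = h) w2 (ep 0 U)
    ⟨ep 0 U, mem_vt_self _ _, hU⟩
  replace hU : lev (ep 0 U) = h := hU
  replace hU' : ∀ v ∈ vs 0 U, lev v ≠ h := hU'
  replace hw' : lev (ep (ep 0 U) w') = h := hw'
  replace hD' : ∀ v ∈ (vt (ep (ep 0 U) w') D).tail, lev v ≠ h := hD'
  subst e2
  set q := ep 0 U with hq
  set q' := ep q w' with hq'
  have htot : ep 0 w = ep q' D := by rw [e1, ep_append, ep_append]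
  have hlev0 : lev (ep q' D) = 0 := by rw [← htot]; exact hw.lev_ep
  have hU1 : ∀ v ∈ vs 0 U, lev v < h :=
    lt_of_ne_levels_vs h U 0 (by simpa using (by omega : (0 : ℤ) < h)) hU'
  have hUne : U ≠ [] := by
    rintro rfl
    simp only [ep_nil] at hq
    rw [hq, lev_zero] at hU
    omega
  have hDne : D ≠ [] := by
    rintro rfl
    rw [ep_nil] at hlev0
    omega
  have hD1 : ∀ v ∈ (vt q' D).tail, lev v < h := by
    cases D with
    | nil => exact absurd rfl hDne
    | cons d D =>
      rw [vt_cons, List.tail_cons] at hD' ⊢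
      rw [ep_cons] at hlev0
      have h1 : lev (q' + dv d) ≠ h := hD' _ (mem_vt_self _ _)
      rcases lt_or_gt_of_ne h1 with h2 | h2
      · exact lt_of_ne_levels h D _ h2 hD'
      · have := gt_of_ne_levels h D _ h2 hD' _ (ep_mem_vt _ _)
        omega
  -- the vertices
  have hvt : vt 0 w = vs 0 U ++ (vs q w' ++ vt q' D) := by rw [e1, vt_append, vt_append]
  have hcount : cnt (vs q w') h = 1 := by
    have h1 : cnt (vt 0 w) h = cnt (vs 0 U) h + (cnt (vs q w') h + cnt (vt q' D) h) := by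
      rw [hvt, cnt_append, cnt_append]
    have h2 : cnt (vs 0 U) h = 0 := (cnt_eq_zero _ _).2 (fun v hv => (hU1 v hv).ne)
    have h3 : cnt (vt q' D) h = 1 := by
      rw [vt_head, cnt_cons, if_pos hw', (cnt_eq_zero _ _).2 (fun v hv => (hD1 v hv).ne)]
    omega
  have hw'ne : w' ≠ [] := by
    rintro rfl
    simp at hcount
  have htail : ∀ v ∈ (vs q w').tail, lev v ≠ h := by
    rw [vs_eq_cons w' q hw'ne, cnt_cons, if_pos hU] at hcount
    exact (cnt_eq_zero _ _).1 (by omega)
  have htail' : ∀ v ∈ (vs q w').tail, h < lev v := by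
    by_contra hcon
    push Not at hcon
    obtain ⟨v1, hv1, hv1'⟩ := hcon
    have hall : ∀ v ∈ (vs q w').tail, lev v < h := by
      cases w' with
      | nil => exact absurd rfl hw'ne
      | cons e w'' =>
        rw [vs_cons, List.tail_cons] at htail hv1 ⊢
        cases w'' with
        | nil => simp
        | cons f w'' =>
          have h1 : lev (q + dv e) ≠ h :=
            htail _ (by rw [vs_cons]; exact List.mem_cons_self ..)
          rcases lt_or_gt_of_ne h1 with h2 | h2
          · exact lt_of_ne_levels_vs h _ _ h2 htail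
          · have := gt_of_ne_levels_vs h _ _ h2 htail v1 hv1
            omega
    obtain ⟨v, hv, hvh⟩ := (cnt_pos _ _).1 hcp
    rw [hvt, List.mem_append, List.mem_append] at hv
    rcases hv with hv | hv | hv
    · have := hU1 v hv
      omega
    · rcases mem_vs_cases w' q v hv with rfl | hv
      · omega
      · have := hall v hv
        omega
    · rw [vt_head, List.mem_cons] at hv
      rcases hv with rfl | hv
      · omega
      · have := hD1 v hv
        omega
  -- the arch w'
  have hnd : (vt 0 w).Nodup := hw.2.2.1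
  have hS1 : SAWs (U ++ (w' ++ D)) := by unfold SAWs; rw [← e1]; exact hnd
  have hSU := (SAWs_append U (w' ++ D) hS1).1
  have hSw := (SAWs_append w' D (SAWs_append U (w' ++ D) hS1).2).1
  have hSD := (SAWs_append w' D (SAWs_append U (w' ++ D) hS1).2).2
  unfold SAWs at hSU hSw hSD
  have hq'2 : q' = q + ep 0 w' := by rw [hq', ep_eq, add_comm]
  have hlw : lev (ep 0 w') = 0 := by
    have h1 : lev q' = lev q + lev (ep 0 w') := by rw [hq'2, lev_add]
    omega
  set y := (ep 0 w').2 with hy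
  have hepw : ep 0 w' = (-y, y) := eq_diag_of_lev _ hlw
  have hintw : ∀ v ∈ (vs 0 w').tail, 0 < lev v := by
    intro v hv
    have h1 : v + q ∈ (vs q w').tail := by
      rw [vs_eq q w', ← List.map_tail, List.mem_map]
      exact ⟨v, hv, rfl⟩
    have := htail' _ h1
    rw [lev_add] at this
    omega
  have harch : Arch y w' := ⟨hw'ne, hepw, hSw, hintw⟩
  have hepD : lev (ep 0 D) = -lev q := by
    have h1 : ep q' D = ep 0 D + q' := ep_eq q' D
    rw [h1, lev_add] at hlev0
    omega
  have hvst : (vs 0 w).tail = (vs 0 U).tail ++ (vs q w' ++ vs q' D) := by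
    rw [e1, vs_append, vs_append, vs_eq_cons U 0 hUne]
    rfl
  have hsp : StripPair U D := by
    have hU0 : lev (ep 0 U) = h := hU
    refine ⟨by omega, hepD, hSU, hSD, ?_, ?_⟩
    · intro v hv
      refine ⟨?_, by
        have := hU1 v (List.mem_of_mem_tail hv); omega⟩
      apply hw.2.2.2
      rw [hvst]
      exact List.mem_append_left _ hv
    · intro v hv
      have h1 : v + q' ∈ (vs q' D).tail := by
        rw [vs_eq q' D, ← List.map_tail, List.mem_map]
        exact ⟨v, hv, rfl⟩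
      have h2 : lev (v + q') < h := by
        apply hD1
        unfold vt
        rw [vs_eq_cons D q' hDne]
        rw [List.cons_append, List.tail_cons]
        exact List.mem_append_left _ h1
      have h3 : 0 < lev (v + q') := by
        apply hw.2.2.2
        rw [hvst]
        exact List.mem_append_right _ (List.mem_append_right _ (List.mem_of_mem_tail h1))
      rw [lev_add] at h2 h3
      rw [hepD]
      omega
  have hjump : x + jump (U, D) = y := by
    have h1 : (ep 0 w) = q + ep 0 w' + ep 0 D := by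
      rw [htot, ep_eq q' D, hq'2]; abel
    rw [hw.2.1, hepw] at h1
    have h2 := congrArg Prod.fst h1
    simp only [Prod.fst_add] at h2
    unfold jump
    simp only
    rw [← hq]
    omega
  refine ⟨U, w', D, y, by rw [e1, List.append_assoc], ⟨hsp, harch, hjump, ?_⟩, hU⟩
  unfold Disj
  rw [hjump]
  simp only
  rw [← hq, ← hepw, ← hq'2]
  intro v hv hv'
  rw [hvt, List.nodup_append', List.nodup_append'] at hnd
  obtain ⟨-, ⟨-, -, hd1⟩, hd2⟩ := hnd
  unfold vt at hv
  rw [List.mem_append, List.mem_singleton] at hv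
  rcases hv with hv | rfl
  · exact hd2 hv (List.mem_append_right _ hv')
  · refine hd1 ?_ hv'
    rw [← hq, vs_eq_cons w' q hw'ne]
    exact List.mem_cons_self ..

lemma first_unique (h : ℤ) (U A U2 A2 : List (Fin 4)) (e : U ++ A = U2 ++ A2)
    (h1 : lev (ep 0 U) = h) (h2 : ∀ v ∈ vs 0 U, lev v < h)
    (h3 : lev (ep 0 U2) = h) (h4 : ∀ v ∈ vs 0 U2, lev v < h) : U = U2 ∧ A = A2 := by
  have key : ∀ (V C : List (Fin 4)), lev (ep 0 V) = h → (∀ v ∈ vs 0 (V ++ C), lev v < h) →
      C = [] := by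
    intro V C hV hVC
    by_contra hC
    have := hVC (ep 0 V) (by
      rw [vs_append, vs_eq_cons C _ hC]
      exact List.mem_append_right _ (List.mem_cons_self ..))
    omega
  rcases List.append_eq_append_iff.1 e with ⟨C, hC1, hC2⟩ | ⟨C, hC1, hC2⟩
  · have := key U C h1 (by rw [← hC1]; exact h4)
    subst this
    simp at hC1 hC2
    exact ⟨hC1.symm, hC2⟩
  · have := key U2 C h3 (by rw [← hC1]; exact h2)
    subst this
    simp at hC1 hC2
    exact ⟨hC1, hC2.symm⟩

lemma last_unique (w D w2 D2 : List (Fin 4)) (e : w ++ D = w2 ++ D2)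
    (h1 : lev (ep 0 w) = 0) (h2 : ∀ v ∈ (vt 0 D).tail, lev v < 0)
    (h3 : lev (ep 0 w2) = 0) (h4 : ∀ v ∈ (vt 0 D2).tail, lev v < 0) : w = w2 ∧ D = D2 := by
  have key : ∀ (V C E : List (Fin 4)), lev (ep 0 V) = 0 → lev (ep 0 (V ++ C)) = 0 →
      (∀ v ∈ (vt 0 (C ++ E)).tail, lev v < 0) → C = [] := by
    intro V C E hV hVC hE
    by_contra hC
    have h5 : lev (ep 0 C) = 0 := by
      rw [ep_append0, lev_add] at hVC
      omega
    have := hE (ep 0 C) (by
      rw [vt_tail_append]
      exact List.mem_append_left _ (ep_mem_tail 0 C hC))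
    omega
  rcases List.append_eq_append_iff.1 e with ⟨C, hC1, hC2⟩ | ⟨C, hC1, hC2⟩
  · have := key w C D2 h1 (by rw [← hC1]; exact h3) (by rw [← hC2]; exact h2)
    subst this
    simp at hC1 hC2
    exact ⟨hC1.symm, hC2⟩
  · have := key w2 C D h3 (by rw [← hC1]; exact h1) (by rw [← hC2]; exact h4)
    subst this
    simp at hC1 hC2
    exact ⟨hC1, hC2.symm⟩

lemma glued_unique {x y y2 : ℤ} {U w D U2 w2 D2 : List (Fin 4)} (g : Glued x y U w D)
    (g2 : Glued x y2 U2 w2 D2) (e : U ++ w ++ D = U2 ++ w2 ++ D2) (hi : Irred U D)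
    (hi2 : Irred U2 D2) : U = U2 ∧ w = w2 ∧ D = D2 := by
  have hh : lev (ep 0 U) = lev (ep 0 U2) := by
    rcases lt_trichotomy (lev (ep 0 U)) (lev (ep 0 U2)) with h | h | h
    · exfalso
      have := g.cut_at
      rw [e] at this
      exact (g2.irred_iff.1 hi2) _ g.sp.hpos h this
    · exact h
    · exfalso
      have := g2.cut_at
      rw [← e] at this
      exact (g.irred_iff.1 hi) _ g2.sp.hpos h this
  rw [List.append_assoc, List.append_assoc] at e
  obtain ⟨h1, h2⟩ := first_unique (lev (ep 0 U)) U (w ++ D) U2 (w2 ++ D2) e rfl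
    (fun v hv => (g.sp.lev_U v hv).2) hh.symm
    (fun v hv => by rw [hh]; exact (g2.sp.lev_U v hv).2)
  obtain ⟨h3, h4⟩ := last_unique w D w2 D2 h2 g.arch.lev_ep (fun v hv => g.sp.lev_D_tail v hv)
    g2.arch.lev_ep (fun v hv => g2.sp.lev_D_tail v hv)
  exact ⟨h1, h3, h4⟩

lemma mem_wordsUpTo (M : ℕ) (w : List (Fin 4)) : w ∈ wordsUpTo M ↔ w.length ≤ M := by
  simp [wordsUpTo, mem_words]

lemma mem_Pc (r : ℕ) (p : List (Fin 4) × List (Fin 4)) :
    p ∈ Pc r ↔ FreePiece p.1 p.2 ∧ p.1.length + p.2.length ≤ r + 2 := by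
  classical
  unfold Pc
  rw [mem_filter, mem_product, mem_wordsUpTo, mem_wordsUpTo]
  constructor
  · rintro ⟨-, h⟩; exact h
  · rintro ⟨h1, h2⟩; exact ⟨⟨by omega, by omega⟩, h1, h2⟩

lemma mem_allowed (r : ℕ) (x : ℤ) (p : List (Fin 4) × List (Fin 4)) :
    p ∈ allowed r x ↔ p ∈ Pc r ∧ 1 ≤ x ∧ 1 ≤ x + jump p ∧ Disj x p := by
  classical
  unfold allowed
  rw [mem_filter]

lemma mem_ArchSet (r : ℕ) (x : ℤ) (N : ℕ) (w : List (Fin 4)) :
    w ∈ ArchSet r x N ↔ w.length = N ∧ Arch x w ∧ ArchRuns r w := by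
  classical
  unfold ArchSet
  rw [mem_filter, mem_words]

lemma mem_CapSet (r : ℕ) (x : ℤ) (N : ℕ) (w : List (Fin 4)) :
    w ∈ CapSet r x N ↔ w.length = N ∧ Arch x w ∧ (∀ h : ℤ, 1 ≤ h → ¬ Cut (vt 0 w) h) ∧
      N ≤ r + 1 := by
  classical
  unfold CapSet
  rw [mem_filter, mem_words]

/-- the number of interior vertices of an arch -/
lemma cntI_arch {x : ℤ} {w : List (Fin 4)} (hw : Arch x w) (b : ℤ)
    (hb : ∀ v ∈ vt 0 w, lev v ≤ b) : cntI (vt 0 w) 1 b = w.length - 1 := by
  unfold vt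
  rw [cntI_append, cntI_cons, hw.lev_ep, if_neg (by omega), cntI_nil, vs_eq_cons w 0 hw.1,
    cntI_cons, if_neg (by rw [lev_zero]; omega), cntI_eq_length, List.length_tail, vs_length]
  · omega
  · intro v hv
    refine ⟨hw.2.2.2 v hv, hb v ?_⟩
    unfold vt
    exact List.mem_append_left _ (List.mem_of_mem_tail hv)

lemma exists_bound (l : List (ℤ × ℤ)) : ∃ b : ℤ, ∀ v ∈ l, lev v ≤ b := by
  induction l with
  | nil => exact ⟨0, by simp⟩
  | cons p l ih =>
    obtain ⟨b, hb⟩ := ih
    refine ⟨max b (lev p), ?_⟩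
    intro v hv
    rw [List.mem_cons] at hv
    rcases hv with rfl | hv
    · exact le_max_right _ _
    · exact (hb v hv).trans (le_max_left _ _)

/-- arches without cut: the run condition bounds the length -/
lemma runs_nocut {x : ℤ} {w : List (Fin 4)} (hw : Arch x w)
    (hc : ∀ h : ℤ, 1 ≤ h → ¬ Cut (vt 0 w) h) (r : ℕ) : ArchRuns r w ↔ w.length ≤ r + 1 := by
  have hl := hw.length_pos
  constructor
  · intro h
    obtain ⟨b, hb⟩ := exists_bound (vt 0 w)
    have h1 := h 1 b le_rfl (fun k hk _ => hc k hk)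
    rw [cntI_arch hw b hb] at h1
    omega
  · intro h a b ha _
    obtain ⟨b', hb'⟩ := exists_bound (vt 0 w)
    have h1 := cntI_mono (vt 0 w) a b 1 (max b b') ha (le_max_left _ _)
    rw [cntI_arch hw _ (fun v hv => (hb' v hv).trans (le_max_right _ _))] at h1
    omega

/-- K2. -/
theorem k2 (h3 : K3_Stmt) : K2_Stmt := by
  intro r x N hx F
  classical
  rw [← sum_filter_add_sum_filter_not (ArchSet r x N)
    (fun w => ∀ h : ℤ, 1 ≤ h → ¬ Cut (vt 0 w) h)]
  congr 1
  · apply sum_congr _ (fun _ _ => rfl)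
    ext w
    rw [mem_filter, mem_ArchSet, mem_CapSet]
    constructor
    · rintro ⟨⟨h1, h2, h4⟩, h5⟩
      refine ⟨h1, h2, h5, ?_⟩
      have := (runs_nocut h2 h5 r).1 h4
      omega
    · rintro ⟨h1, h2, h4, h5⟩
      exact ⟨⟨h1, h2, (runs_nocut h2 h4 r).2 (by omega)⟩, h4⟩
  · rw [sum_sigma']
    symm
    refine sum_bij (fun z _ => z.1.1 ++ z.2 ++ z.1.2) ?_ ?_ ?_ ?_
    · rintro ⟨p, w⟩ hz
      rw [mem_sigma, mem_allowed, mem_ArchSet, mem_Pc] at hz
      obtain ⟨⟨⟨⟨hsp, hirr⟩, hlen⟩, -, hy, hdisj⟩, hwl, hwa, hwr⟩ := hz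
      have g : Glued x (x + jump p) p.1 w p.2 := ⟨hsp, hwa, rfl, hdisj⟩
      rw [mem_filter, mem_ArchSet]
      simp only
      refine ⟨⟨?_, g.arch_total, (g.runs_iff hirr r).2 ⟨hlen, hwr⟩⟩, ?_⟩
      · have h1 : 0 < w.length := hwa.length_pos
        have h2 : w.length = N - (p.1.length + p.2.length) := hwl
        rw [List.length_append, List.length_append]
        omega
      · intro h
        exact h _ (by have := g.sp.hpos; omega) g.cut_at
    · rintro ⟨p, w⟩ hz ⟨p2, w2⟩ hz2 e
      rw [mem_sigma, mem_allowed, mem_ArchSet, mem_Pc] at hz hz2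
      obtain ⟨⟨⟨⟨hsp, hirr⟩, hlen⟩, -, hy, hdisj⟩, hwl, hwa, hwr⟩ := hz
      obtain ⟨⟨⟨⟨hsp2, hirr2⟩, hlen2⟩, -, hy2, hdisj2⟩, hwl2, hwa2, hwr2⟩ := hz2
      have g : Glued x (x + jump p) p.1 w p.2 := ⟨hsp, hwa, rfl, hdisj⟩
      have g2 : Glued x (x + jump p2) p2.1 w2 p2.2 := ⟨hsp2, hwa2, rfl, hdisj2⟩
      obtain ⟨e1, e2, e3⟩ := glued_unique g g2 e hirr hirr2
      have e4 : p = p2 := Prod.ext e1 e3
      subst e4
      subst e2
      rfl
    · intro w hw
      rw [mem_filter, mem_ArchSet] at hw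
      obtain ⟨⟨hl, hwa, hwr⟩, hcut⟩ := hw
      push Not at hcut
      -- the lowest cut
      obtain ⟨h0, hh0, hc0⟩ := hcut
      have hex : ∃ n : ℕ, Cut (vt 0 w) ((n : ℤ) + 1) := ⟨(h0 - 1).toNat, by
        rw [Int.toNat_of_nonneg (by omega), sub_add_cancel]; exact hc0⟩
      have hfind := Nat.find_spec hex
      have hmin : ∀ k : ℤ, 0 < k → k < (Nat.find hex : ℤ) + 1 → ¬ Cut (vt 0 w) k := by
        intro k hk1 hk2 hck
        have := Nat.find_min' hex (m := (k - 1).toNat) (by
          rw [Int.toNat_of_nonneg (by omega), sub_add_cancel]; exact hck)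
        omega
      obtain ⟨U, w', D, y, e, g, hU⟩ := exists_glued hwa _ (by omega) hfind
      have hirr : Irred U D := by
        rw [g.irred_iff]
        intro k hk1 hk2
        rw [← e]
        exact hmin k hk1 (by omega)
      have hr := (g.runs_iff hirr r).1 (by rw [← e]; exact hwr)
      have hy1 : 1 ≤ x + jump (U, D) := h3 x (U, D) hx g.sp g.disj
      have hlen : w.length = U.length + w'.length + D.length := by
        rw [e, List.length_append, List.length_append]
      refine ⟨⟨(U, D), w'⟩, ?_, e.symm⟩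
      rw [mem_sigma, mem_allowed, mem_ArchSet, mem_Pc]
      refine ⟨⟨⟨⟨g.sp, hirr⟩, hr.1⟩, hx, hy1, g.disj⟩, ?_, ?_, hr.2⟩
      · simp only
        omega
      · simp only
        rw [g.hy]
        exact g.arch
    · rintro ⟨p, w⟩ _
      rfl

end Pool.Agent.SapR
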