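import Pool.Agent.Lib_helper24.SapR.Basic
import Pool.Agent.Lib_helper27.Bridge

/-!
# Gluing a strip pair and an arch
-/

set_option autoImplicit false

namespace Pool.Agent.SapR

open Finset Pool.Agent.Lib27

lemma vs_eq_cons (w : List (Fin 4)) (p : ℤ × ℤ) (hw : w ≠ []) : vs p w = p :: (vs p w).tail := by
  cases w with
  | nil => exact absurd rfl hw
  | cons d w => simp

lemma vt_tail_mem_cases (w : List (Fin 4)) (p v : ℤ × ℤ) (hv : v ∈ (vt p w).tail) (hw : w ≠ []) :
    v ∈ (vs p w).tail ∨ v = ep p w := by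
  cases w with
  | nil => exact absurd rfl hw
  | cons d w =>
    rw [vt_cons, List.tail_cons, vt, List.mem_append, List.mem_singleton] at hv
    rw [vs_cons, List.tail_cons]
    exact hv

lemma mem_vs_cases (w : List (Fin 4)) (p v : ℤ × ℤ) (hv : v ∈ vs p w) :
    v = p ∨ v ∈ (vs p w).tail := by
  cases w with
  | nil => simp at hv
  | cons d w =>
    rw [vs_cons, List.mem_cons] at hv
    rw [vs_cons, List.tail_cons]
    exact hv

namespace Arch

variable {x : ℤ} {w : List (Fin 4)}

lemma zero_mem (h : Arch x w) : (0 : ℤ × ℤ) ∈ vs 0 w := by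
  rw [vs_eq_cons w 0 h.1]; exact List.mem_cons_self ..

lemma ep_ne (h : Arch x w) : ep 0 w ≠ 0 := by
  intro h0
  have h1 := h.2.2.1
  unfold vt at h1
  rw [List.nodup_append] at h1
  exact h1.2.2 0 h.zero_mem (ep 0 w) (by simp) h0.symm

lemma gap_ne (h : Arch x w) : x ≠ 0 := by
  rintro rfl
  exact h.ep_ne (by rw [h.2.1]; simp)

lemma lev_ep (h : Arch x w) : lev (ep 0 w) = 0 := by
  rw [h.2.1, lev_diag]

lemma lev_nonneg (h : Arch x w) (v : ℤ × ℤ) (hv : v ∈ vt 0 w) : 0 ≤ lev v := by
  unfold vt at hv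
  rw [List.mem_append, List.mem_singleton] at hv
  rcases hv with hv | rfl
  · rcases mem_vs_cases w 0 v hv with rfl | hv
    · simp
    · exact (h.2.2.2 v hv).le
  · rw [h.lev_ep]

lemma eq_zero_of_lev (h : Arch x w) (v : ℤ × ℤ) (hv : v ∈ vs 0 w) (h0 : lev v ≤ 0) : v = 0 := by
  rcases mem_vs_cases w 0 v hv with h1 | h1
  · exact h1
  · have := h.2.2.2 v h1
    omega

/-- the first vertex after the start has level one and is an interior vertex -/
lemma first (h : Arch x w) : ∃ v ∈ (vs 0 w).tail, lev v = 1 := by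
  obtain ⟨hne, hep, hnd, hint⟩ := h
  cases w with
  | nil => exact absurd rfl hne
  | cons d w =>
    rw [vs_cons, List.tail_cons] at hint ⊢
    cases w with
    | nil =>
      rw [ep_cons, ep_nil] at hep
      have h1 : lev (0 + dv d) = 0 := by rw [hep, lev_diag]
      rw [lev_add, lev_zero] at h1
      rcases lev_dv d with h2 | h2 <;> omega
    | cons e w =>
      refine ⟨0 + dv d, by rw [vs_cons]; exact List.mem_cons_self .., ?_⟩
      have h1 := hint (0 + dv d) (by rw [vs_cons]; exact List.mem_cons_self ..)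
      rw [lev_add, lev_zero] at h1 ⊢
      rcases lev_dv d with h2 | h2 <;> omega

lemma cnt_vt_zero (h : Arch x w) : cnt (vt 0 w) 0 = 2 := by
  unfold vt
  rw [cnt_append, cnt_cons, if_pos h.lev_ep, vs_eq_cons w 0 h.1, cnt_cons, if_pos lev_zero,
    (cnt_eq_zero _ _).2 (fun v hv => (h.2.2.2 v hv).ne')]
  simp

lemma length_pos (h : Arch x w) : 0 < w.length := List.length_pos_iff.2 h.1

end Arch

namespace StripPair

variable {U D : List (Fin 4)}

lemma hpos (h : StripPair U D) : 0 < lev (ep 0 U) := h.1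

lemma U_ne (h : StripPair U D) : U ≠ [] := by
  rintro rfl
  have := h.1
  simp at this

lemma D_ne (h : StripPair U D) : D ≠ [] := by
  rintro rfl
  have h1 := h.1
  have h2 := h.2.1
  simp only [ep_nil, lev_zero] at h2
  omega

lemma lev_U (h : StripPair U D) (v : ℤ × ℤ) (hv : v ∈ vs 0 U) :
    0 ≤ lev v ∧ lev v < lev (ep 0 U) := by
  rcases mem_vs_cases U 0 v hv with rfl | h1
  · exact ⟨by simp, h.1⟩
  · exact ⟨(h.2.2.2.2.1 v h1).1.le, (h.2.2.2.2.1 v h1).2⟩

lemma lev_D (h : StripPair U D) (v : ℤ × ℤ) (hv : v ∈ vs 0 D) :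
    lev v ≤ 0 ∧ - lev (ep 0 U) < lev v := by
  rcases mem_vs_cases D 0 v hv with rfl | h1
  · exact ⟨by simp, by simpa using h.1⟩
  · have := h.2.2.2.2.2 v h1
    rw [h.2.1] at this
    exact ⟨this.1.le, this.2⟩

lemma lev_D_tail (h : StripPair U D) (v : ℤ × ℤ) (hv : v ∈ (vt 0 D).tail) : lev v < 0 := by
  rcases vt_tail_mem_cases D 0 v hv h.D_ne with h1 | rfl
  · exact (h.2.2.2.2.2 v h1).1
  · rw [h.2.1]
    have := h.1
    omega

end StripPair

/-- The data of a strip pair glued below an arch. -/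
structure Glued (x y : ℤ) (U w D : List (Fin 4)) : Prop where
  sp : StripPair U D
  arch : Arch y w
  hy : x + jump (U, D) = y
  disj : Disj x (U, D)

lemma vt_glue (U w D : List (Fin 4)) :
    vt 0 (U ++ w ++ D) = vs 0 U ++ ((vs 0 w).map (· + ep 0 U) ++
      (vt 0 D).map (· + (ep 0 U + ep 0 w))) := by
  rw [List.append_assoc, vt_append, vt_append, vs_eq (ep 0 U) w, vt_eq (ep (ep 0 U) w) D,
    ep_eq (ep 0 U) w, add_comm (ep 0 w)]

lemma vs_glue3 (U w D : List (Fin 4)) :
    vs 0 (U ++ w ++ D) = vs 0 U ++ ((vs 0 w).map (· + ep 0 U) ++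
      (vs 0 D).map (· + (ep 0 U + ep 0 w))) := by
  rw [List.append_assoc, vs_append, vs_append, vs_eq (ep 0 U) w, vs_eq (ep (ep 0 U) w) D,
    ep_eq (ep 0 U) w, add_comm (ep 0 w)]

namespace Glued

variable {x y : ℤ} {U w D : List (Fin 4)}

lemma ep_total (g : Glued x y U w D) : ep 0 (U ++ w ++ D) = (-x, x) := by
  rw [ep_append0, ep_append0, g.arch.2.1]
  have h1 := g.hy
  have h2 := g.sp.2.1
  unfold jump at h1
  unfold lev at h2
  simp only at h1
  ext
  · simp only [Prod.fst_add]; linarith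
  · simp only [Prod.snd_add]; linarith

lemma cnt_ge (g : Glued x y U w D) (k : ℤ) (hk : lev (ep 0 U) ≤ k) :
    cnt (vt 0 (U ++ w ++ D)) k = cnt (vt 0 w) (k - lev (ep 0 U)) := by
  rw [vt_glue, cnt_append, cnt_append, cnt_map_add, cnt_map_add, lev_add, g.arch.lev_ep, add_zero,
    (cnt_eq_zero (vs 0 U) k).2 (fun v hv => by have := (g.sp.lev_U v hv).2; omega), zero_add]
  unfold vt
  rw [cnt_append (vs 0 w), ← vt, vt_head 0 D, cnt_cons,
    (cnt_eq_zero (vt 0 D).tail _).2
      (fun v hv => by have := g.sp.lev_D_tail v hv; omega), cnt_cons, g.arch.lev_ep, lev_zero]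
  simp

lemma cnt_lt (g : Glued x y U w D) (k : ℤ) (hk : k < lev (ep 0 U)) :
    cnt (vt 0 (U ++ w ++ D)) k = cnt (vt 0 U) k + cnt (vt 0 D) (k - lev (ep 0 U)) := by
  rw [vt_glue, cnt_append, cnt_append, cnt_map_add, cnt_map_add, lev_add, g.arch.lev_ep, add_zero,
    (cnt_eq_zero (vs 0 w) _).2 (fun v hv => by
      have := g.arch.lev_nonneg v (by unfold vt; exact List.mem_append_left _ hv); omega), zero_add]
  congr 1
  rw [vt, cnt_append, cnt_cons, if_neg (by omega)]
  simp

lemma visited_low (g : Glued x y U w D) (k : ℤ) (h0 : 0 ≤ k) (hk : k ≤ lev (ep 0 U)) :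
    0 < cnt (vt 0 (U ++ w ++ D)) k := by
  rcases hk.eq_or_lt with rfl | hk'
  · rw [g.cnt_ge _ le_rfl, sub_self, g.arch.cnt_vt_zero]
    norm_num
  · rw [g.cnt_lt k hk']
    have := (cnt_pos (vt 0 U) k).2 (exists_level U 0 k (by simpa using h0) hk)
    omega

lemma cut_at (g : Glued x y U w D) : Cut (vt 0 (U ++ w ++ D)) (lev (ep 0 U)) := by
  refine ⟨?_, ?_, ?_⟩
  · rw [g.cnt_ge _ le_rfl, sub_self, g.arch.cnt_vt_zero]
  · have := g.sp.hpos
    exact g.visited_low _ (by omega) (by omega)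
  · rw [g.cnt_ge _ (by omega)]
    obtain ⟨v, hv, h1⟩ := g.arch.first
    rw [cnt_pos]
    refine ⟨v, ?_, by omega⟩
    unfold vt
    exact List.mem_append_left _ (List.mem_of_mem_tail hv)

lemma cut_gt (g : Glued x y U w D) (k : ℤ) (hk : lev (ep 0 U) < k) :
    Cut (vt 0 (U ++ w ++ D)) k ↔ Cut (vt 0 w) (k - lev (ep 0 U)) := by
  unfold Cut
  rw [g.cnt_ge k hk.le, g.cnt_ge (k - 1) (by omega), g.cnt_ge (k + 1) (by omega),
    show k - 1 - lev (ep 0 U) = k - lev (ep 0 U) - 1 by ring,
    show k + 1 - lev (ep 0 U) = k - lev (ep 0 U) + 1 by ring]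

lemma cnt_U_pos (_g : Glued x y U w D) (k : ℤ) (h0 : 0 ≤ k) (hk : k ≤ lev (ep 0 U)) :
    0 < cnt (vt 0 U) k :=
  (cnt_pos (vt 0 U) k).2 (exists_level U 0 k (by simpa using h0) hk)

lemma cnt_D_pos (g : Glued x y U w D) (k : ℤ) (h0 : 0 ≤ k) (hk : k ≤ lev (ep 0 U)) :
    0 < cnt (vt 0 D) (k - lev (ep 0 U)) := by
  rw [cnt_pos]
  refine exists_level' D 0 _ ?_ ?_
  · simp only [lev_zero]; omega
  · rw [g.sp.2.1]; omega

lemma cut_lt (g : Glued x y U w D) (k : ℤ) (h0 : 0 < k) (hk : k < lev (ep 0 U)) :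
    Cut (vt 0 (U ++ w ++ D)) k ↔
      (cnt (vt 0 U) k = 1 ∧ cnt (vt 0 D) (k - lev (ep 0 U)) = 1) := by
  unfold Cut
  have h1 := g.visited_low (k - 1) (by omega) (by omega)
  have h2 := g.visited_low (k + 1) (by omega) (by omega)
  have h3 := g.cnt_U_pos k h0.le hk.le
  have h4 := g.cnt_D_pos k h0.le hk.le
  rw [g.cnt_lt k hk]
  constructor
  · rintro ⟨h5, -, -⟩; omega
  · rintro ⟨h5, h6⟩; exact ⟨by omega, h1, h2⟩

lemma irred_iff (g : Glued x y U w D) :
    Irred U D ↔ ∀ k : ℤ, 0 < k → k < lev (ep 0 U) → ¬ Cut (vt 0 (U ++ w ++ D)) k := by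
  unfold Irred
  constructor
  · intro h k h0 hk hc
    exact h k h0 hk ((g.cut_lt k h0 hk).1 hc)
  · intro h k h0 hk hc
    exact h k h0 hk ((g.cut_lt k h0 hk).2 hc)

lemma cntI_gt (g : Glued x y U w D) (a b : ℤ) (ha : lev (ep 0 U) < a) :
    cntI (vt 0 (U ++ w ++ D)) a b = cntI (vt 0 w) (a - lev (ep 0 U)) (b - lev (ep 0 U)) := by
  rw [vt_glue, cntI_append, cntI_append, cntI_map_add, cntI_map_add, lev_add, g.arch.lev_ep,
    add_zero,
    cntI_eq_zero (vs 0 U) a b (fun v hv => Or.inl (by have := (g.sp.lev_U v hv).2; omega)),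
    cntI_eq_zero (vt 0 D) (a - lev (ep 0 U)) (b - lev (ep 0 U)) (fun v hv => Or.inl (by
      rw [vt_head, List.mem_cons] at hv
      rcases hv with rfl | hv
      · rw [lev_zero]; omega
      · have := g.sp.lev_D_tail v hv; omega)), zero_add, add_zero]
  unfold vt
  rw [cntI_append, cntI_cons, g.arch.lev_ep, if_neg (by omega)]
  simp

lemma cntI_low (g : Glued x y U w D) (a b : ℤ) (ha : 1 ≤ a) (hb : b < lev (ep 0 U)) :
    cntI (vt 0 (U ++ w ++ D)) a b ≤ (U.length - 1) + (D.length - 1) := by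
  rw [vt_glue, cntI_append, cntI_append, cntI_map_add, cntI_map_add, lev_add, g.arch.lev_ep,
    add_zero, cntI_eq_zero (vs 0 w) _ _ (fun v hv => Or.inr (by
      have := g.arch.lev_nonneg v (by unfold vt; exact List.mem_append_left _ hv)
      omega)), zero_add, vs_eq_cons U 0 g.sp.U_ne, cntI_cons, if_neg (by rw [lev_zero]; omega),
    zero_add]
  unfold vt
  rw [cntI_append, vs_eq_cons D 0 g.sp.D_ne, cntI_cons, if_neg (by rw [lev_zero]; omega),
    cntI_cons, g.sp.2.1, if_neg (by omega), cntI_nil, zero_add, add_zero, add_zero]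
  have h1 := cntI_le_length (vs 0 U).tail a b
  have h2 := cntI_le_length (vs 0 D).tail (a - lev (ep 0 U)) (b - lev (ep 0 U))
  rw [List.length_tail, vs_length] at h1 h2
  omega

lemma cntI_low_eq (g : Glued x y U w D) :
    cntI (vt 0 (U ++ w ++ D)) 1 (lev (ep 0 U) - 1) = (U.length - 1) + (D.length - 1) := by
  rw [vt_glue, cntI_append, cntI_append, cntI_map_add, cntI_map_add, lev_add, g.arch.lev_ep,
    add_zero, cntI_eq_zero (vs 0 w) _ _ (fun v hv => Or.inr (by
      have := g.arch.lev_nonneg v (by unfold vt; exact List.mem_append_left _ hv)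
      omega)), zero_add, vs_eq_cons U 0 g.sp.U_ne, cntI_cons, if_neg (by rw [lev_zero]; omega),
    zero_add]
  unfold vt
  rw [cntI_append, vs_eq_cons D 0 g.sp.D_ne, cntI_cons, if_neg (by rw [lev_zero]; omega),
    cntI_cons, g.sp.2.1, if_neg (by omega), cntI_nil, zero_add, add_zero, add_zero,
    cntI_eq_length (vs 0 U).tail _ _ (fun v hv => by
      have := g.sp.2.2.2.2.1 v hv; omega),
    cntI_eq_length (vs 0 D).tail _ _ (fun v hv => by
      have := g.sp.2.2.2.2.2 v hv
      rw [g.sp.2.1] at this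
      omega), List.length_tail, List.length_tail, vs_length, vs_length]

/-- the run condition of the glued word -/
lemma runs_iff (g : Glued x y U w D) (hirr : Irred U D) (r : ℕ) :
    ArchRuns r (U ++ w ++ D) ↔ U.length + D.length ≤ r + 2 ∧ ArchRuns r w := by
  have hU := List.length_pos_iff.2 g.sp.U_ne
  have hD := List.length_pos_iff.2 g.sp.D_ne
  constructor
  · intro h
    constructor
    · have h1 := h 1 (lev (ep 0 U) - 1) le_rfl (fun k hk1 hk2 =>
        (g.irred_iff.1 hirr) k (by omega) (by omega))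
      rw [g.cntI_low_eq] at h1
      omega
    · intro a b ha hab
      have h1 := h (a + lev (ep 0 U)) (b + lev (ep 0 U)) (by have := g.sp.hpos; omega) (by
        intro k hk1 hk2
        rw [g.cut_gt k (by omega)]
        exact hab _ (by omega) (by omega))
      rw [g.cntI_gt _ _ (by omega), add_sub_cancel_right, add_sub_cancel_right] at h1
      exact h1
  · rintro ⟨h1, h2⟩ a b ha hab
    rcases lt_or_ge b a with hba | hba
    · rw [cntI_eq_zero _ _ _ (fun v _ => by omega)]
      exact Nat.zero_le _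
    rcases lt_trichotomy a (lev (ep 0 U)) with h3 | h3 | h3
    · rcases lt_or_ge b (lev (ep 0 U)) with h4 | h4
      · have := g.cntI_low a b ha h4
        omega
      · exact absurd g.cut_at (hab _ h3.le h4)
    · exact absurd g.cut_at (hab _ h3.le (by omega))
    · rw [g.cntI_gt a b h3]
      apply h2 _ _ (by omega)
      intro k hk1 hk2 hc
      refine hab (k + lev (ep 0 U)) (by omega) (by omega) ?_
      rw [g.cut_gt _ (by omega), add_sub_cancel_right]
      exact hc

lemma nodup_total (g : Glued x y U w D) : (vt 0 (U ++ w ++ D)).Nodup := by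
  rw [vt_glue, List.nodup_append', List.nodup_append']
  have hep : ep 0 w = (-y, y) := g.arch.2.1
  have hinj : ∀ q : ℤ × ℤ, Function.Injective (fun v : ℤ × ℤ => v + q) :=
    fun q => add_left_injective q
  have hUn : (vs 0 U).Nodup := by
    have := g.sp.2.2.1
    unfold vt at this
    exact this.of_append_left
  have hwn : (vs 0 w).Nodup := by
    have := g.arch.2.2.1
    unfold vt at this
    exact this.of_append_left
  refine ⟨hUn, ⟨hwn.map (hinj _), g.sp.2.2.2.1.map (hinj _), ?_⟩, ?_⟩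
  · intro v hv hv'
    rw [List.mem_map] at hv hv'
    obtain ⟨a, ha, rfl⟩ := hv
    obtain ⟨b, hb, hab⟩ := hv'
    have h1 : 0 ≤ lev a := g.arch.lev_nonneg a (by unfold vt; exact List.mem_append_left _ ha)
    have h2 : lev b = lev a := by
      have h4 : lev (b + (ep 0 U + ep 0 w)) = lev (a + ep 0 U) := congrArg lev hab
      rw [lev_add, lev_add, lev_add, g.arch.lev_ep] at h4
      omega
    rw [vt_head, List.mem_cons] at hb
    rcases hb with rfl | hb
    · rw [lev_zero] at h2
      have h3 := g.arch.eq_zero_of_lev a ha (by omega)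
      rw [h3] at hab
      apply g.arch.ep_ne
      have h5 : ep 0 U + ep 0 w = ep 0 U := by
        rw [zero_add, zero_add] at hab
        exact hab
      exact add_eq_left.mp h5
    · have := g.sp.lev_D_tail b hb
      omega
  · intro v hv hv'
    rw [List.mem_append] at hv'
    rcases hv' with hv' | hv'
    · rw [List.mem_map] at hv'
      obtain ⟨a, ha, rfl⟩ := hv'
      have h1 : 0 ≤ lev a := g.arch.lev_nonneg a (by unfold vt; exact List.mem_append_left _ ha)
      have h2 := (g.sp.lev_U _ hv).2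
      rw [lev_add] at h2
      omega
    · have h1 := g.disj
      unfold Disj at h1
      rw [g.hy, vt_eq _ D] at h1
      simp only at h1
      rw [hep] at hv'
      exact h1 (by unfold vt; exact List.mem_append_left _ hv) hv'

lemma arch_total (g : Glued x y U w D) : Arch x (U ++ w ++ D) := by
  refine ⟨?_, g.ep_total, g.nodup_total, ?_⟩
  · intro h
    apply g.sp.U_ne
    rw [List.append_eq_nil_iff, List.append_eq_nil_iff] at h
    exact h.1.1
  · intro v hv
    rw [vs_glue3, vs_eq_cons U 0 g.sp.U_ne, List.cons_append, List.tail_cons, List.mem_append,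
      List.mem_append] at hv
    have hh := g.sp.hpos
    rcases hv with hv | hv | hv
    · exact (g.sp.2.2.2.2.1 v hv).1
    · rw [List.mem_map] at hv
      obtain ⟨a, ha, rfl⟩ := hv
      have h1 : 0 ≤ lev a := g.arch.lev_nonneg a (by unfold vt; exact List.mem_append_left _ ha)
      rw [lev_add]
      omega
    · rw [List.mem_map] at hv
      obtain ⟨a, ha, rfl⟩ := hv
      have h1 := g.sp.lev_D a ha
      rw [lev_add, lev_add, g.arch.lev_ep]
      omega

end Glued

end Pool.Agent.SapR
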