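import Pool.Agent.Lib_helper24.SapR.Defs

/-!
# Basic lemmas: levels, counting vertices on diagonals, discrete continuity
-/

set_option autoImplicit false

namespace Pool.Agent.SapR

open Finset Pool.Agent.Lib27

@[simp] lemma lev_zero : lev 0 = 0 := rfl

lemma lev_add (p q : ℤ × ℤ) : lev (p + q) = lev p + lev q := by
  simp only [lev, Prod.fst_add, Prod.snd_add]; ring

lemma lev_neg (p : ℤ × ℤ) : lev (-p) = - lev p := by
  simp only [lev, Prod.fst_neg, Prod.snd_neg]; ring

lemma lev_sub (p q : ℤ × ℤ) : lev (p - q) = lev p - lev q := by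
  simp only [lev, Prod.fst_sub, Prod.snd_sub]; ring

@[simp] lemma lev_diag (x : ℤ) : lev (-x, x) = 0 := by simp [lev]

@[simp] lemma lev_diag' (x : ℤ) : lev (x, -x) = 0 := by simp [lev]

lemma lev_dv (d : Fin 4) : lev (dv d) = 1 ∨ lev (dv d) = -1 := by
  revert d; decide

lemma lev_dv_up (d : Fin 4) : lev (dv d) = 1 ↔ d = 0 ∨ d = 1 := by
  revert d; decide

lemma lev_dv_down (d : Fin 4) : lev (dv d) = -1 ↔ d = 2 ∨ d = 3 := by
  revert d; decide

lemma ep_append0 (s t : List (Fin 4)) : ep 0 (s ++ t) = ep 0 s + ep 0 t := by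
  rw [ep_append, ep_eq, add_comm]

/-! ### counting -/

lemma cnt_append (l m : List (ℤ × ℤ)) (h : ℤ) : cnt (l ++ m) h = cnt l h + cnt m h := by
  simp [cnt, List.countP_append]

lemma cnt_cons (p : ℤ × ℤ) (l : List (ℤ × ℤ)) (h : ℤ) :
    cnt (p :: l) h = (if lev p = h then 1 else 0) + cnt l h := by
  unfold cnt
  rw [List.countP_cons, add_comm]
  congr 1
  simp

@[simp] lemma cnt_nil (h : ℤ) : cnt [] h = 0 := rfl

lemma cnt_map_add (l : List (ℤ × ℤ)) (q : ℤ × ℤ) (h : ℤ) :
    cnt (l.map (· + q)) h = cnt l (h - lev q) := by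
  unfold cnt
  rw [List.countP_map]
  apply List.countP_congr
  intro p _
  simp only [Function.comp, decide_eq_true_eq, lev_add]
  constructor <;> intro h <;> linarith

lemma cnt_eq_zero (l : List (ℤ × ℤ)) (h : ℤ) : cnt l h = 0 ↔ ∀ p ∈ l, lev p ≠ h := by
  simp [cnt, List.countP_eq_zero]

lemma cnt_pos (l : List (ℤ × ℤ)) (h : ℤ) : 0 < cnt l h ↔ ∃ p ∈ l, lev p = h := by
  simp [cnt, List.countP_pos_iff]

lemma cnt_perm {l m : List (ℤ × ℤ)} (h : l.Perm m) (k : ℤ) : cnt l k = cnt m k :=
  h.countP_eq _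

lemma cntI_append (l m : List (ℤ × ℤ)) (a b : ℤ) : cntI (l ++ m) a b = cntI l a b + cntI m a b := by
  simp [cntI, List.countP_append]

lemma cntI_cons (p : ℤ × ℤ) (l : List (ℤ × ℤ)) (a b : ℤ) :
    cntI (p :: l) a b = (if a ≤ lev p ∧ lev p ≤ b then 1 else 0) + cntI l a b := by
  unfold cntI
  rw [List.countP_cons, add_comm]
  congr 1
  simp

@[simp] lemma cntI_nil (a b : ℤ) : cntI [] a b = 0 := rfl

lemma cntI_map_add (l : List (ℤ × ℤ)) (q : ℤ × ℤ) (a b : ℤ) :
    cntI (l.map (· + q)) a b = cntI l (a - lev q) (b - lev q) := by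
  unfold cntI
  rw [List.countP_map]
  apply List.countP_congr
  intro p _
  simp only [Function.comp, decide_eq_true_eq, lev_add]
  constructor
  · rintro ⟨h1, h2⟩; exact ⟨by linarith, by linarith⟩
  · rintro ⟨h1, h2⟩; exact ⟨by linarith, by linarith⟩

lemma cntI_eq_zero (l : List (ℤ × ℤ)) (a b : ℤ) (h : ∀ p ∈ l, lev p < a ∨ b < lev p) :
    cntI l a b = 0 := by
  unfold cntI
  rw [List.countP_eq_zero]
  intro p hp
  simp only [decide_eq_true_eq]
  rcases h p hp with h | h
  · intro h'; linarith [h'.1]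
  · intro h'; linarith [h'.2]

lemma cntI_eq_length (l : List (ℤ × ℤ)) (a b : ℤ) (h : ∀ p ∈ l, a ≤ lev p ∧ lev p ≤ b) :
    cntI l a b = l.length := by
  unfold cntI
  rw [List.countP_eq_length]
  intro p hp
  simpa using h p hp

lemma cntI_le_length (l : List (ℤ × ℤ)) (a b : ℤ) : cntI l a b ≤ l.length :=
  List.countP_le_length

lemma cntI_mono (l : List (ℤ × ℤ)) (a b a' b' : ℤ) (h1 : a' ≤ a) (h2 : b ≤ b') :
    cntI l a b ≤ cntI l a' b' := by
  unfold cntI
  apply List.countP_mono_left
  intro p _ hp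
  simp only [decide_eq_true_eq] at hp ⊢
  exact ⟨by linarith [hp.1], by linarith [hp.2]⟩

/-! ### discrete continuity -/

lemma lt_of_ne_levels (h : ℤ) (s : List (Fin 4)) (p : ℤ × ℤ) (hp : lev p < h)
    (hs : ∀ v ∈ vt p s, lev v ≠ h) : ∀ v ∈ vt p s, lev v < h := by
  induction s generalizing p with
  | nil =>
    intro v hv
    simp only [vt_nil, List.mem_singleton] at hv
    rw [hv]; exact hp
  | cons d s ih =>
    intro v hv
    rw [vt_cons, List.mem_cons] at hv
    rcases hv with rfl | hv
    · exact hp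
    · refine ih (p + dv d) ?_ ?_ v hv
      · have h1 : lev (p + dv d) ≠ h := by
          apply hs
          rw [vt_cons, List.mem_cons]
          exact Or.inr (mem_vt_self _ _)
        rw [lev_add] at h1 ⊢
        rcases lev_dv d with h2 | h2 <;> rw [h2] at h1 ⊢ <;> omega
      · intro v hv
        apply hs
        rw [vt_cons, List.mem_cons]
        exact Or.inr hv

lemma gt_of_ne_levels (h : ℤ) (s : List (Fin 4)) (p : ℤ × ℤ) (hp : h < lev p)
    (hs : ∀ v ∈ vt p s, lev v ≠ h) : ∀ v ∈ vt p s, h < lev v := by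
  induction s generalizing p with
  | nil =>
    intro v hv
    simp only [vt_nil, List.mem_singleton] at hv
    rw [hv]; exact hp
  | cons d s ih =>
    intro v hv
    rw [vt_cons, List.mem_cons] at hv
    rcases hv with rfl | hv
    · exact hp
    · refine ih (p + dv d) ?_ ?_ v hv
      · have h1 : lev (p + dv d) ≠ h := by
          apply hs
          rw [vt_cons, List.mem_cons]
          exact Or.inr (mem_vt_self _ _)
        rw [lev_add] at h1 ⊢
        rcases lev_dv d with h2 | h2 <;> rw [h2] at h1 ⊢ <;> omega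
      · intro v hv
        apply hs
        rw [vt_cons, List.mem_cons]
        exact Or.inr hv

/-- version for the starting points of the steps -/
lemma lt_of_ne_levels_vs (h : ℤ) (s : List (Fin 4)) (p : ℤ × ℤ) (hp : lev p < h)
    (hs : ∀ v ∈ vs p s, lev v ≠ h) : ∀ v ∈ vs p s, lev v < h := by
  induction s generalizing p with
  | nil => simp
  | cons d s ih =>
    intro v hv
    rw [vs_cons, List.mem_cons] at hv
    rcases hv with rfl | hv
    · exact hp
    · cases s with
      | nil => simp at hv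
      | cons e s =>
        refine ih (p + dv d) ?_ ?_ v hv
        · have h1 : lev (p + dv d) ≠ h := by
            apply hs
            rw [vs_cons, List.mem_cons]
            exact Or.inr (by rw [vs_cons]; exact List.mem_cons_self ..)
          rw [lev_add] at h1 ⊢
          rcases lev_dv d with h2 | h2 <;> rw [h2] at h1 ⊢ <;> omega
        · intro v hv
          apply hs
          rw [vs_cons, List.mem_cons]
          exact Or.inr hv

lemma exists_level (s : List (Fin 4)) (p : ℤ × ℤ) (k : ℤ) (h1 : lev p ≤ k)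
    (h2 : k ≤ lev (ep p s)) : ∃ v ∈ vt p s, lev v = k := by
  by_contra hcon
  push Not at hcon
  have h3 : lev p ≠ k := hcon p (mem_vt_self _ _)
  have h4 := lt_of_ne_levels k s p (lt_of_le_of_ne h1 h3) hcon (ep p s) (ep_mem_vt _ _)
  omega

lemma exists_level' (s : List (Fin 4)) (p : ℤ × ℤ) (k : ℤ) (h1 : k ≤ lev p)
    (h2 : lev (ep p s) ≤ k) : ∃ v ∈ vt p s, lev v = k := by
  by_contra hcon
  push Not at hcon
  have h3 : lev p ≠ k := hcon p (mem_vt_self _ _)
  have h4 := gt_of_ne_levels k s p (lt_of_le_of_ne h1 (Ne.symm h3)) hcon (ep p s) (ep_mem_vt _ _)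
  omega

/-- parity of the level of the end point -/
lemma lev_parity (s : List (Fin 4)) (p : ℤ × ℤ) : Even (lev (ep p s) - lev p - s.length) := by
  induction s generalizing p with
  | nil => simp
  | cons d s ih =>
    have h1 := ih (p + dv d)
    rw [lev_add] at h1
    rw [ep_cons, List.length_cons]
    push_cast
    rcases lev_dv d with h2 | h2 <;> rw [h2] at h1
    · have : lev (ep (p + dv d) s) - lev p - ((s.length : ℤ) + 1) =
        lev (ep (p + dv d) s) - (lev p + 1) - s.length := by ring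
      rwa [this]
    · have : lev (ep (p + dv d) s) - lev p - ((s.length : ℤ) + 1) =
        lev (ep (p + dv d) s) - (lev p + -1) - s.length - 2 := by ring
      rw [this]
      exact h1.sub (by decide)

end Pool.Agent.SapR
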