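import Pool.Agent.Lib_helper27.Saw

/-!
# Self-avoiding polygons with short runs of non-cut diagonals: definitions

Words are lists over `Fin 4` (East, North, West, South), read from the origin; the basic
notions `dv` (step), `ep p s` (end point), `vs p s` (starting points of the steps),
`vt p s` (all vertices), `dbl p s` (shoelace sum, twice the signed area), `SAPw` (closed
self-avoiding words), `words N`, `W n` (words of polygons of perimeter `2n`) are those of
`Lib_helper27`.
-/

set_option autoImplicit false

namespace Pool.Agent.SapR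

open Finset Pool.Agent.Lib27

/-- The level of a vertex: the number of the diagonal `x + y = h` on which it lies. -/
def lev (p : ℤ × ℤ) : ℤ := p.1 + p.2

/-- The number of vertices of the list `l` which lie on the diagonal `h`. -/
def cnt (l : List (ℤ × ℤ)) (h : ℤ) : ℕ := l.countP (fun p => decide (lev p = h))

/-- The diagonal `h` is a cut of the vertex list `l`: exactly two vertices lie on it, and both
neighbouring diagonals are visited. -/
def Cut (l : List (ℤ × ℤ)) (h : ℤ) : Prop :=
  cnt l h = 2 ∧ 0 < cnt l (h - 1) ∧ 0 < cnt l (h + 1)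

/-- The number of vertices of `l` with level in `[a, b]`. -/
def cntI (l : List (ℤ × ℤ)) (a b : ℤ) : ℕ :=
  l.countP (fun p => decide (a ≤ lev p ∧ lev p ≤ b))

/-- Every run of consecutive non-cut diagonals contains at most `r` vertices. -/
def ShortRuns (r : ℕ) (l : List (ℤ × ℤ)) : Prop :=
  ∀ a b : ℤ, (∀ h : ℤ, a ≤ h → h ≤ b → ¬ Cut l h) → cntI l a b ≤ r

open Classical in
/-- The words of self-avoiding polygons of perimeter `2n` all of whose runs of non-cut
diagonals contain at most `r` vertices. -/
noncomputable def Fam (r n : ℕ) : Finset (List (Fin 4)) :=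
  (W n).filter (fun s => ShortRuns r (vs 0 s))

/-- Arches of gap `x`: self-avoiding words from the origin to `(-x, x)` whose interior vertices
are above the diagonal `0`. -/
def Arch (x : ℤ) (w : List (Fin 4)) : Prop :=
  w ≠ [] ∧ ep 0 w = (-x, x) ∧ (vt 0 w).Nodup ∧ ∀ p ∈ (vs 0 w).tail, 0 < lev p

/-- The run condition for an arch (only diagonals above `0` are considered). -/
def ArchRuns (r : ℕ) (w : List (Fin 4)) : Prop :=
  ∀ a b : ℤ, 1 ≤ a → (∀ h : ℤ, a ≤ h → h ≤ b → ¬ Cut (vt 0 w) h) → cntI (vt 0 w) a b ≤ r

open Classical in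
/-- Arches of gap `x` with `N` steps satisfying the run condition. -/
noncomputable def ArchSet (r : ℕ) (x : ℤ) (N : ℕ) : Finset (List (Fin 4)) :=
  (words N).filter (fun w => Arch x w ∧ ArchRuns r w)

open Classical in
/-- Caps: arches of gap `x` with `N` steps, without cut diagonal, with at most `r` interior
vertices. -/
noncomputable def CapSet (r : ℕ) (x : ℤ) (N : ℕ) : Finset (List (Fin 4)) :=
  (words N).filter (fun w => Arch x w ∧ (∀ h : ℤ, 1 ≤ h → ¬ Cut (vt 0 w) h) ∧ N ≤ r + 1)

/-- Pairs of strands `(U, D)` in a strip: `U` climbs from the diagonal `0` to the diagonal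
`h = lev (ep 0 U) > 0`, `D` descends by `h`, both are self-avoiding and their interior vertices
are strictly inside the strip. -/
def StripPair (U D : List (Fin 4)) : Prop :=
  0 < lev (ep 0 U) ∧ lev (ep 0 D) = - lev (ep 0 U) ∧ (vt 0 U).Nodup ∧ (vt 0 D).Nodup ∧
  (∀ p ∈ (vs 0 U).tail, 0 < lev p ∧ lev p < lev (ep 0 U)) ∧
  (∀ p ∈ (vs 0 D).tail, lev p < 0 ∧ lev (ep 0 D) < lev p)

/-- Irreducibility: no intermediate diagonal meets each of the two strands exactly once. -/
def Irred (U D : List (Fin 4)) : Prop :=
  ∀ k : ℤ, 0 < k → k < lev (ep 0 U) →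
    ¬ (cnt (vt 0 U) k = 1 ∧ cnt (vt 0 D) (k - lev (ep 0 U)) = 1)

/-- Free irreducible pieces. -/
def FreePiece (U D : List (Fin 4)) : Prop := StripPair U D ∧ Irred U D

/-- Change of the gap along a piece. -/
def jump (p : List (Fin 4) × List (Fin 4)) : ℤ := (ep 0 p.1).1 + (ep 0 p.2).1

/-- Height of a piece. -/
def ht (p : List (Fin 4) × List (Fin 4)) : ℤ := lev (ep 0 p.1)

/-- Area offset of a piece. -/
def off (p : List (Fin 4) × List (Fin 4)) : ℤ := dbl 0 p.1 + dbl 0 p.2

/-- The two strands are disjoint when the gap on the lower diagonal is `x` (the descending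
strand ends at `(-x, x)`). -/
def Disj (x : ℤ) (p : List (Fin 4) × List (Fin 4)) : Prop :=
  List.Disjoint (vt 0 p.1) (vt (ep 0 p.1 + (-(x + jump p), x + jump p)) p.2)

/-- All words of length at most `M`. -/
def wordsUpTo (M : ℕ) : Finset (List (Fin 4)) := (range (M + 1)).biUnion words

open Classical in
/-- The finite set of free irreducible pieces with at most `r` interior vertices. -/
noncomputable def Pc (r : ℕ) : Finset (List (Fin 4) × List (Fin 4)) :=
  (wordsUpTo (r + 2) ×ˢ wordsUpTo (r + 2)).filter
    (fun p => FreePiece p.1 p.2 ∧ p.1.length + p.2.length ≤ r + 2)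

open Classical in
/-- The pieces allowed when the lower gap is `x`. -/
noncomputable def allowed (r : ℕ) (x : ℤ) : Finset (List (Fin 4) × List (Fin 4)) :=
  (Pc r).filter (fun p => 1 ≤ x ∧ 1 ≤ x + jump p ∧ Disj x p)

/-- Rotation by 180 degrees, on words. -/
def rot2 (w : List (Fin 4)) : List (Fin 4) := w.map (· + 2)

/-- The involution of pieces given by the rotation by 180 degrees. -/
def flip (p : List (Fin 4) × List (Fin 4)) : List (Fin 4) × List (Fin 4) :=
  (rot2 p.2, rot2 p.1)

end Pool.Agent.SapR
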